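import Pool.Agent.H32.CH.Targets

set_option autoImplicit false

namespace Pool.Agent.H49.CH.F1

open Finset Pool.Agent.H32.CH
open scoped Classical

theorem pf_F1 (h1 : T_E2) (h2 : T_FA) (h3 : T_FB) (h4 : T_FC) (h5 : T_CU) : T_F1 := by
  intro V _ G A hD hT hE Z z b hZ hz hb hzb
  have hzA : z ∈ A := hZ.1.1 hz
  have htk : Tk G A z := ⟨hzA, hZ.2.1 z hz⟩
  have hM : MinC G A := hE.1.1
  have hEA : Ext G (insert b (A.erase z)) := h1 V G A z b hD hE.1 htk hb hzb
  have hFA : ∀ C, Prob G (insert b (A.erase z)) C → b ∉ C → Prob G A C ∧ z ∉ C :=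
    fun C hC hbC => h2 V G A C z b hD hT hM htk hb.1 hzb hC hbC
  have hZmem : Z ∈ (univ : Finset (Finset V)).filter (fun Z => Prob G A Z) :=
    mem_filter.2 ⟨mem_univ _, hZ⟩
  -- a problematic component of the new set contains b
  obtain ⟨Z', hZ', hbZ'⟩ : ∃ Z', Prob G (insert b (A.erase z)) Z' ∧ b ∈ Z' := by
    by_contra hcon
    push Not at hcon
    have hle := hE.2 _ hEA
    have hlt : cn G (insert b (A.erase z)) < cn G A := by
      unfold cn
      refine card_lt_card ?_
      rw [ssubset_iff_of_subset]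
      · refine ⟨Z, hZmem, ?_⟩
        intro hZ2
        exact (hFA Z (mem_filter.1 hZ2).2 (hcon Z (mem_filter.1 hZ2).2)).2 hz
      · intro C hC
        exact mem_filter.2 ⟨mem_univ _, (hFA C (mem_filter.1 hC).2 (hcon C (mem_filter.1 hC).2)).1⟩
    omega
  obtain ⟨hP, hzZ', hP6, u, w, hu, hw, huw, huw', hdu, hdw, hdx, hbu, hbw, hbx⟩ :=
    h3 V G A Z' z b hD hT hE.1 htk hb hzb hZ' hbZ'
  have hins : insert b (Z'.erase b) = Z' := insert_erase hbZ'
  have hPZ : Z'.erase b ≠ Z := by
    intro h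
    rw [← h] at hz
    exact hzZ' (mem_of_mem_erase hz)
  have hZb : ∀ x ∈ Z, G.Adj b x → x = z := by
    intro x hx hbx'
    rcases hbx x (hZ.1.1 hx) hbx' with h | h | h
    · exact h
    · subst h
      exact absurd (h5 V G A _ _ x hP hZ.1 hu hx) hPZ
    · subst h
      exact absurd (h5 V G A _ _ x hP hZ.1 hw hx) hPZ
  obtain ⟨hC1, hC2⟩ := h4 V G A Z z b hZ hz hb.1 hZb
  have hback : ∀ C, Prob G A C → C ≠ Z → Prob G (insert b (A.erase z)) C := by
    intro C hC hCZ
    have hno : ∀ x ∈ C, ¬ G.Adj b x := by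
      intro x hx hbx'
      rcases hbx x (hC.1.1 hx) hbx' with h | h | h
      · subst h
        exact hCZ (h5 V G A _ _ x hC.1 hZ.1 hx hz)
      · subst h
        have := hC.2.1 x hx
        omega
      · subst h
        have := hC.2.1 x hx
        omega
    obtain ⟨hc1, hc2⟩ := hC2 C hC.1 hCZ hno
    exact ⟨hc1, fun x hx => by rw [hc2 x hx]; exact hC.2.1 x hx, hC.2.2⟩
  have hiff : ∀ C, Prob G (insert b (A.erase z)) C ↔
      C = insert b (Z'.erase b) ∨ (Prob G A C ∧ C ≠ Z) := by
    intro C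
    constructor
    · intro hC
      by_cases hbC : b ∈ C
      · left
        rw [hins]
        exact h5 V G _ _ _ b hC.1 hZ'.1 hbC hbZ'
      · right
        obtain ⟨hc1, hc2⟩ := hFA C hC hbC
        exact ⟨hc1, fun h => hc2 (h ▸ hz)⟩
    · rintro (h | ⟨hc1, hc2⟩)
      · rw [h, hins]
        exact hZ'
      · exact hback C hc1 hc2
  have hcn : cn G (insert b (A.erase z)) ≤ cn G A := by
    unfold cn
    have hsub : (univ : Finset (Finset V)).filter (fun Z => Prob G (insert b (A.erase z)) Z) ⊆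
        insert Z' (((univ : Finset (Finset V)).filter (fun Z => Prob G A Z)).erase Z) := by
      intro C hC
      rcases (hiff C).1 (mem_filter.1 hC).2 with h | ⟨hc1, hc2⟩
      · rw [h, hins]
        exact mem_insert_self _ _
      · exact mem_insert_of_mem (mem_erase.2 ⟨hc2, mem_filter.2 ⟨mem_univ _, hc1⟩⟩)
    have h6 := card_le_card hsub
    have h7 := card_insert_le Z' (((univ : Finset (Finset V)).filter (fun Z => Prob G A Z)).erase Z)
    have h8 := card_erase_add_one hZmem
    omega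
  refine ⟨⟨hEA, fun A' hA' => hcn.trans (hE.2 A' hA')⟩, hC1, Z'.erase b, u, w, hP, hPZ, ?_, hP6, hu,
    hw, huw, huw', hdu, hdw, hdx, hbu, hbw, hbx, hiff⟩
  rw [hins]
  exact hZ'

end Pool.Agent.H49.CH.F1
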